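import Mathlib

/-! Continuous base points in the plane: square roots, signs and the triangle lemma. -/

open Set Complex

namespace Pool.Agent.MP_4b405e_nt.H23

/-- A continuous nowhere vanishing function on the plane has a continuous square root. -/
theorem root {g : ℂ → ℂ} (hg : Continuous g) (h0 : ∀ p, g p ≠ 0) :
    ∃ S : ℂ → ℂ, Continuous S ∧ ∀ p, S p ^ 2 = g p := by
  have hs : IsSimplyConnected (univ : Set ℂ) :=
    (Homeomorph.Set.univ ℂ).toHomotopyEquiv.simplyConnectedSpace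
  obtain ⟨S, hS, h⟩ := Complex.exists_continuousOn_pow_eq hs isOpen_univ hg.continuousOn
    (by rintro ⟨p, -, hp⟩; exact h0 p hp) two_ne_zero
  exact ⟨S, continuousOn_univ.mp hS, h⟩

/-- A nowhere vanishing real function keeps its sign on a preconnected set. -/
theorem sgn {s : Set ℂ} (hs : IsPreconnected s) {u : ℂ → ℝ} (hu : ContinuousOn u s)
    (h0 : ∀ p ∈ s, u p ≠ 0) {P Q : ℂ} (hP : P ∈ s) (hQ : Q ∈ s) : 0 < u P * u Q := by
  by_contra h
  rcases lt_or_gt_of_ne (h0 P hP) with h1 | h1 <;> rcases lt_or_gt_of_ne (h0 Q hQ) with h2 | h2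
  · exact h (mul_pos_of_neg_of_neg h1 h2)
  · obtain ⟨p, hp, e⟩ := hs.intermediate_value hP hQ hu ⟨h1.le, h2.le⟩
    exact h0 p hp e
  · obtain ⟨p, hp, e⟩ := hs.intermediate_value hQ hP hu ⟨h2.le, h1.le⟩
    exact h0 p hp e
  · exact h (mul_pos h1 h2)

/-- If `S ^ 2 = k * T ^ 2` on a preconnected set then `S / T` is constant there. -/
theorem ratio {s : Set ℂ} (hs : IsPreconnected s) {S T : ℂ → ℂ} (hS : Continuous S)
    (hT : Continuous T) (S0 : ∀ p, S p ≠ 0) (T0 : ∀ p, T p ≠ 0) {k : ℂ}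
    (h : ∀ p ∈ s, S p ^ 2 = k * T p ^ 2) {P Q : ℂ} (hP : P ∈ s) (hQ : Q ∈ s) :
    S Q * T P = S P * T Q := by
  have := hs.eq_of_sq_eq (f := fun p => S p * T P) (g := fun p => S P * T p)
    (by fun_prop) (by fun_prop)
    (fun p hp => by simp only [Pi.pow_apply, mul_pow, h p hp, h P hP]; ring)
    (fun {x} _ => mul_ne_zero (S0 P) (T0 x)) hP rfl
  exact this hQ

/-- Triangle lemma. -/
theorem tri {a e : ℂ → ℂ} (ha : Continuous a) (he : Continuous e) {X0 X1 X2 : Set ℂ}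
    (k0 : IsClosed X0) (k1 : IsClosed X1) (k2 : IsClosed X2)
    (d0 : interior X0 = ∅) (d1 : interior X1 = ∅) (d2 : interior X2 = ∅)
    (h0 : ∀ p, a p ∈ X0) (h1 : ∀ p, a p + e p ∈ X1) (h2 : ∀ p, a p + 2 * e p ∈ X2)
    {α β γ : Set ℂ} (hα : IsPreconnected α) (hβ : IsPreconnected β) (hγ : IsPreconnected γ)
    {P Q R c0 c1 c2 : ℂ} (Pα : P ∈ α) (Qα : Q ∈ α) (Qβ : Q ∈ β) (Rβ : R ∈ β) (Rγ : R ∈ γ)
    (Pγ : P ∈ γ) (fα : ∀ p ∈ α, a p + e p = c1) (fβ : ∀ p ∈ β, a p + 2 * e p = c2)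
    (fγ : ∀ p ∈ γ, a p = c0) (eα : ∀ p ∈ α, e p = p) (eR : e R = R) : P = Q ∧ P = R := by
  have hP : P = c1 - c0 := by
    have := fα P Pα; rw [fγ P Pγ, eα P Pα] at this; linear_combination this
  have hQ : Q = c2 - c1 := by
    have := fα Q Qα; have h := fβ Q Qβ; rw [eα Q Qα] at this h; linear_combination h - this
  have hR : 2 * R = c2 - c0 := by
    have := fβ R Rβ; rw [fγ R Rγ, eR] at this; linear_combination this
  suffices h : P = Q from ⟨h, by linear_combination (1 / 2 : ℂ) * h + (1 / 2 : ℂ) * hP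
    + (1 / 2 : ℂ) * hQ - (1 / 2 : ℂ) * hR⟩
  by_contra hne
  have hRc : a R + e R ≠ c1 := by
    rw [fγ R Rγ, eR]
    intro h
    apply hne
    linear_combination hP - hQ + hR - 2 * h
  -- the side α stays away from R
  obtain ⟨m, hm, hfar⟩ : ∃ m > 0, ∀ p ∈ α, m ≤ ‖p - R‖ := by
    have : IsOpen {p | a p + e p ≠ c1} := isOpen_ne_fun (by fun_prop) continuous_const
    obtain ⟨m, hm, hb⟩ := Metric.isOpen_iff.mp this R hRc
    refine ⟨m, hm, fun p hp => ?_⟩
    by_contra hlt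
    exact hb (by rw [Metric.mem_ball, dist_eq_norm]; exact not_le.mp hlt) (fα p hp)
  -- a generic point
  have dn : ∀ {X : Set ℂ}, IsClosed X → interior X = ∅ → ∀ c : ℂ,
      IsOpen ((fun y : ℂ => 2 * y - c) ⁻¹' Xᶜ) ∧ Dense ((fun y : ℂ => 2 * y - c) ⁻¹' Xᶜ) := by
    intro X k d c
    refine ⟨k.isOpen_compl.preimage (by fun_prop), ?_⟩
    refine (interior_eq_empty_iff_dense_compl.mp d).preimage ?_
    exact ((Homeomorph.mulLeft₀ (2 : ℂ) two_ne_zero).trans (Homeomorph.subRight c)).isOpenMap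
  have hd : Dense (X1ᶜ ∩ ((fun y : ℂ => 2 * y - c2) ⁻¹' X0ᶜ ∩ (fun y : ℂ => 2 * y - c0) ⁻¹' X2ᶜ)) :=
    (interior_eq_empty_iff_dense_compl.mp d1).inter_of_isOpen_left
      ((dn k0 d0 c2).2.inter_of_isOpen_left (dn k2 d2 c0).2 (dn k0 d0 c2).1) k1.isOpen_compl
  obtain ⟨y, hy, y1, y0, y2⟩ := (Metric.dense_iff.mp hd) ((c1 + c2 - R) / 2) (m / 2) (by positivity)
  obtain ⟨w, hw⟩ : ∃ w, w = c1 + c2 - R - 2 * y := ⟨_, rfl⟩
  have wm : ‖w‖ < m := by
    rw [Metric.mem_ball, dist_eq_norm] at hy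
    have : w = (-2) * (y - (c1 + c2 - R) / 2) := by rw [hw]; ring
    rw [this, norm_mul]; simp only [norm_neg, Complex.norm_ofNat]; linarith
  have n0 : ∀ p, a p - (2 * y - c2) ≠ 0 := fun p h => y0 (by
    show 2 * y - c2 ∈ X0
    rw [← sub_eq_zero.mp h]; exact h0 p)
  have n1 : ∀ p, a p + e p - y ≠ 0 := fun p h => y1 (by rw [← sub_eq_zero.mp h]; exact h1 p)
  have n2 : ∀ p, a p + 2 * e p - (2 * y - c0) ≠ 0 :=
    fun p h => y2 (by
      show 2 * y - c0 ∈ X2
      rw [← sub_eq_zero.mp h]; exact h2 p)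
  obtain ⟨S0, s0, e0⟩ := root (by fun_prop) n0
  obtain ⟨S1, s1, e1⟩ := root (by fun_prop) n1
  obtain ⟨S2, s2, e2⟩ := root (by fun_prop) n2
  have z0 : ∀ p, S0 p ≠ 0 := fun p h => n0 p (by rw [← e0, h]; simp)
  have z1 : ∀ p, S1 p ≠ 0 := fun p h => n1 p (by rw [← e1, h]; simp)
  have z2 : ∀ p, S2 p ≠ 0 := fun p h => n2 p (by rw [← e2, h]; simp)
  have o : ∀ _ : ℂ, (1 : ℂ) ≠ 0 := fun _ => one_ne_zero
  have r1 := ratio hα s1 continuous_const z1 o (k := c1 - y)
    (fun p hp => by rw [e1, fα p hp]; ring) Pα Qα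
  have r2 := ratio hβ s2 continuous_const z2 o (k := c2 - (2 * y - c0))
    (fun p hp => by rw [e2, fβ p hp]; ring) Qβ Rβ
  have r0 := ratio hγ s0 continuous_const z0 o (k := c0 - (2 * y - c2))
    (fun p hp => by rw [e0, fγ p hp]; ring) Pγ Rγ
  have r3 := ratio hβ s0 s1 z0 z1 (k := 2)
    (fun p hp => by rw [e0, e1]; linear_combination -fβ p hp) Qβ Rβ
  have r4 := ratio hγ s2 s1 z2 z1 (k := 2)
    (fun p hp => by rw [e2, e1]; linear_combination -fγ p hp) Pγ Rγ
  have key : S0 P * S2 P = S0 Q * S2 Q := by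
    apply mul_right_cancel₀ (z1 R)
    linear_combination (-S0 P) * r4 + S2 Q * r3 - S2 R * S1 P * r0 + S0 R * S1 P * r2
      - S0 R * S2 Q * r1
  have pR : ∀ p ∈ α, p - R ≠ 0 := fun p hp h => by
    have := hfar p hp; rw [h, norm_zero] at this; linarith
  have hI : ∀ p ∈ α, (S0 p * S2 p / (p - R)).im ≠ 0 := by
    intro p hp hi
    have q : (S0 p * S2 p / (p - R)) ^ 2 + 1 = (w / (p - R)) ^ 2 := by
      have f := fα p hp
      have ep := eα p hp
      have := pR p hp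
      rw [div_pow, mul_pow, e0, e2, div_pow, hw]
      field_simp
      have ap : a p = c1 - p := by linear_combination f - ep
      have c0' : c0 = c2 - 2 * R := by linear_combination hR
      rw [ep, ap, c0']; ring
    have l : ‖(w / (p - R)) ^ 2‖ < 1 := by
      rw [norm_pow, norm_div]
      have := hfar p hp
      have : ‖w‖ / ‖p - R‖ < 1 := (div_lt_one (by linarith)).mpr (by linarith)
      exact pow_lt_one₀ (by positivity) this two_ne_zero
    rw [← q] at l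
    have := (Complex.re_le_norm _).trans_lt l
    rw [add_re, sq, mul_re, hi, one_re] at this
    nlinarith [mul_self_nonneg (S0 p * S2 p / (p - R)).re]
  have := sgn hα (u := fun p => (S0 p * S2 p / (p - R)).im)
    (Complex.continuous_im.comp_continuousOn
      (ContinuousOn.div (by fun_prop) (by fun_prop) pR)) hI Pα Qα
  have hq : Q - R = -(P - R) := by linear_combination hP + hQ - hR
  simp only [← key, hq, div_neg, neg_im] at this
  nlinarith [mul_self_nonneg (S0 P * S2 P / (P - R)).im]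

end Pool.Agent.MP_4b405e_nt.H23
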