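import Pool.Agent.MP_4b405e_nt.H23.Tri

/-! The Y lemma: a connected piece of one fibre touches the three sides of a loop. -/

open Set Complex Metric Filter Topology

namespace Pool.Agent.MP_4b405e_nt.H23

/-- Three open sets without a common point cannot cover the plane and avoid one side each. -/
theorem kkm {M L R lam α aL aR : Set ℂ} (oM : IsOpen M) (oL : IsOpen L) (oR : IsOpen R)
    (cov : ∀ p, p ∈ M ∨ p ∈ L ∨ p ∈ R) (trip : ∀ p, p ∈ M → p ∈ L → p ∈ R → False)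
    (hl : IsPreconnected lam) (hα : IsPreconnected α) (sub : α ⊆ aL ∪ aR) {A B : ℂ}
    (Al : A ∈ lam) (Bl : B ∈ lam) (Aα : A ∈ α) (Bα : B ∈ α) (AL : A ∈ aL) (BR : B ∈ aR)
    (hM : ∀ p ∈ lam, p ∉ M) (hL : ∀ p ∈ aR, p ∉ L) (hR : ∀ p ∈ aL, p ∉ R) : False := by
  have bump : ∀ O : Set ℂ, IsOpen O → Oᶜ.Nonempty →
      ∃ φ : ℂ → ℝ, Continuous φ ∧ (∀ p, 0 ≤ φ p) ∧ (∀ p ∈ O, 0 < φ p) ∧ ∀ p, p ∉ O → φ p = 0 :=
    fun O o ne => ⟨fun p => infDist p Oᶜ, continuous_infDist_pt _, fun _ => infDist_nonneg,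
      fun p hp => (o.isClosed_compl.notMem_iff_infDist_pos ne).mp (fun h => h hp),
      fun p hp => infDist_zero_of_mem hp⟩
  obtain ⟨m, cm, m0, m1, m2⟩ := bump M oM ⟨A, hM A Al⟩
  obtain ⟨l, cl, l0, l1, l2⟩ := bump L oL ⟨B, hL B BR⟩
  obtain ⟨r, cr, r0, r1, r2⟩ := bump R oR ⟨A, hR A AL⟩
  have pos : ∀ p, 0 < m p + l p + r p := fun p => by
    have := m0 p; have := l0 p; have := r0 p
    rcases cov p with h | h | h
    · linarith [m1 p h]
    · linarith [l1 p h]
    · linarith [r1 p h]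
  have zero : ∀ p, m p = 0 ∨ l p = 0 ∨ r p = 0 := fun p => by
    by_contra h
    push Not at h
    exact trip p (by_contra fun n => h.1 (m2 p n)) (by_contra fun n => h.2.1 (l2 p n))
      (by_contra fun n => h.2.2 (r2 p n))
  obtain ⟨S, cS, e⟩ := root (g := fun p => ((m p - l p - r p : ℝ) : ℂ) + ((l p - r p : ℝ) : ℂ) * I)
    (by fun_prop) (fun p h => by
      have h1 := congrArg re h
      have h2 := congrArg im h
      simp only [add_re, ofReal_re, mul_re, I_re, ofReal_im, I_im, add_im, mul_im, zero_re,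
        zero_im] at h1 h2
      have := pos p
      rcases zero p with h | h | h <;> linarith)
  have ere : ∀ p, (S p).re * (S p).re - (S p).im * (S p).im = m p - l p - r p := fun p => by
    have := congrArg re (e p)
    simpa [sq] using this
  have eim : ∀ p, 2 * ((S p).re * (S p).im) = l p - r p := fun p => by
    have := congrArg im (e p)
    simp only [sq, mul_im, add_im, ofReal_im, ofReal_re, I_re, I_im] at this
    linarith
  have s1 := sgn hl (u := fun p => (S p).im) (by fun_prop) (fun p hp h => by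
    have h1 := ere p
    have := pos p
    have := m2 p (hM p hp)
    rw [h] at h1
    nlinarith [mul_self_nonneg (S p).re]) Al Bl
  have s2 := sgn hα (u := fun p => (S p).re) (by fun_prop) (fun p hp h => by
    have h1 := ere p
    have h2 := eim p
    have := pos p
    rw [h] at h1 h2
    have := mul_self_nonneg (S p).im
    rcases sub hp with h | h
    · have := r2 p (hR p h); linarith
    · have := l2 p (hL p h); linarith) Aα Bα
  have a1 : 0 < (S A).re * (S A).im := by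
    have := eim A; have := pos A; have := m2 A (hM A Al); have := r2 A (hR A AL); linarith
  have b1 : (S B).re * (S B).im < 0 := by
    have := eim B; have := pos B; have := m2 B (hM B Bl); have := l2 B (hL B BR); linarith
  nlinarith [mul_pos s1 s2, mul_pos a1 (neg_pos.mpr b1)]

/-- If two open sets cover the plane, a connected piece of one of them touches all three sides. -/
theorem cover {V : Bool → Set ℂ} (oV : ∀ j, IsOpen (V j)) (cov : ∀ p, ∃ j, p ∈ V j)
    {lam α aL aR : Set ℂ} (hl : IsPreconnected lam) (hα : IsPreconnected α) (sub : α ⊆ aL ∪ aR)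
    {A B : ℂ} (Al : A ∈ lam) (Bl : B ∈ lam) (Aα : A ∈ α) (Bα : B ∈ α) (AL : A ∈ aL)
    (BR : B ∈ aR) : ∃ j C, IsPreconnected C ∧ C ⊆ V j ∧ (C ∩ lam).Nonempty ∧ (C ∩ aL).Nonempty ∧
      (C ∩ aR).Nonempty := by
  by_contra hn
  let C := fun j p => connectedComponentIn (V j) p
  let O := fun T : Set ℂ → Prop => {p | ∃ j, p ∈ V j ∧ T (C j p)}
  have oO : ∀ T, IsOpen (O T) := fun T => isOpen_iff_forall_mem_open.mpr fun p ⟨j, hp, hT⟩ =>
    ⟨C j p, fun q hq => ⟨j, connectedComponentIn_subset _ _ hq, by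
      have : C j p = C j q := connectedComponentIn_eq hq
      rwa [← this]⟩, (oV j).connectedComponentIn, mem_connectedComponentIn hp⟩
  refine kkm (oO fun c => ¬(c ∩ lam).Nonempty)
    (oO fun c => (c ∩ lam).Nonempty ∧ ¬(c ∩ aR).Nonempty)
    (oO fun c => (c ∩ lam).Nonempty ∧ (c ∩ aR).Nonempty) (fun p => ?_) ?_ hl hα sub Al Bl Aα Bα
    AL BR ?_ ?_ ?_
  · obtain ⟨j, hj⟩ := cov p
    by_cases h1 : (C j p ∩ lam).Nonempty
    · by_cases h2 : (C j p ∩ aR).Nonempty
      · exact Or.inr (Or.inr ⟨j, hj, h1, h2⟩)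
      · exact Or.inr (Or.inl ⟨j, hj, h1, h2⟩)
    · exact Or.inl ⟨j, hj, h1⟩
  · rintro p ⟨i, -, hi⟩ ⟨j, -, hj⟩ ⟨k, -, hk⟩
    cases i <;> cases j <;> cases k <;> tauto
  · rintro p hp ⟨j, hj, h⟩
    exact h ⟨p, mem_connectedComponentIn hj, hp⟩
  · rintro p hp ⟨j, hj, -, h⟩
    exact h ⟨p, mem_connectedComponentIn hj, hp⟩
  · rintro p hp ⟨j, hj, h1, h2⟩
    exact hn ⟨j, C j p, isPreconnected_connectedComponentIn, connectedComponentIn_subset _ _, h1,
      ⟨p, mem_connectedComponentIn hj, hp⟩, h2⟩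

theorem osc {C : Set ℂ} (hC : IsPreconnected C) {u : ℂ → ℝ} (hu : Continuous u)
    (h : ∀ p ∈ C, ∀ n : ℤ, u p ≠ n) {p q : ℂ} (hp : p ∈ C) (hq : q ∈ C) : u q - u p ≤ 1 := by
  by_contra hlt
  obtain ⟨z, hz, e⟩ := hC.intermediate_value hp hq hu.continuousOn
    (show ((⌈u p⌉ : ℤ) : ℝ) ∈ Icc (u p) (u q) from
      ⟨Int.le_ceil _, by linarith [Int.ceil_lt_add_one (u p)]⟩)
  exact h z hz _ e

/-- Approximate form: the oscillation of `f` on the connected piece is at most `2 * h`. -/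
theorem ystep {f : ℂ → ℂ} (hf : Continuous f) {X : Set ℂ} (k : IsClosed X) (d : interior X = ∅)
    (hX : ∀ p, f p ∈ X) {lam α aL aR : Set ℂ} (hl : IsPreconnected lam) (hα : IsPreconnected α)
    (sub : α ⊆ aL ∪ aR) {A B : ℂ} (Al : A ∈ lam) (Bl : B ∈ lam) (Aα : A ∈ α) (Bα : B ∈ α)
    (AL : A ∈ aL) (BR : B ∈ aR) {h : ℝ} (h0 : 0 < h) :
    ∃ C, IsPreconnected C ∧ (∀ p ∈ C, ∀ q ∈ C, ‖f q - f p‖ ≤ 2 * h) ∧ (C ∩ lam).Nonempty ∧
      (C ∩ aL).Nonempty ∧ (C ∩ aR).Nonempty := by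
  obtain ⟨v, hv⟩ : (⋂ n : ℤ × ℤ, (fun y : ℂ => y + h * (n.1 + n.2 * I)) ⁻¹' Xᶜ).Nonempty :=
    (dense_iInter_of_isOpen (fun n => k.isOpen_compl.preimage (by fun_prop)) fun n =>
      (interior_eq_empty_iff_dense_compl.mp d).preimage (Homeomorph.addRight _).isOpenMap).nonempty
  obtain ⟨x, hx⟩ : ∃ x : ℂ → ℝ, x = fun p => (f p - v).re / h := ⟨_, rfl⟩
  obtain ⟨y, hy⟩ : ∃ y : ℂ → ℝ, y = fun p => (f p - v).im / h := ⟨_, rfl⟩
  have cx : Continuous x := by rw [hx]; fun_prop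
  have cy : Continuous y := by rw [hy]; fun_prop
  have hfv : ∀ p, f p = v + h * (x p + y p * I) := fun p => by
    have : (h : ℂ) ≠ 0 := by exact_mod_cast h0.ne'
    rw [hx, hy]; push_cast; field_simp
    rw [re_add_im]; ring
  have op : ∀ u : ℂ → ℝ, Continuous u → IsOpen {p | ∀ n : ℤ, u p ≠ n} := fun u hu => by
    have := Int.isClosedEmbedding_coe_real.isClosed_range.isOpen_compl.preimage hu
    have e : {p | ∀ n : ℤ, u p ≠ n} = u ⁻¹' (range ((↑) : ℤ → ℝ))ᶜ := by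
      ext p; simp [eq_comm]
    rwa [e]
  obtain ⟨j, C, hC, hV, hm⟩ := cover (V := fun j => cond j
      ({p | ∀ n : ℤ, x p ≠ n} ∩ {p | ∀ n : ℤ, y p ≠ n})
      ({p | ∀ n : ℤ, x p + y p ≠ n} ∩ {p | ∀ n : ℤ, x p - y p ≠ n}))
    (fun j => by
      cases j
      · exact (op _ (cx.add cy)).inter (op _ (cx.sub cy))
      · exact (op _ cx).inter (op _ cy))
    (fun p => by
      by_contra hn
      push Not at hn
      have h1 := hn true
      have h2 := hn false
      simp only [cond_true, cond_false, mem_inter_iff, mem_ofPred_eq, not_and_or, not_forall,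
        not_not] at h1 h2
      have key : ∀ n m : ℤ, x p = n → y p = m → False := fun n m hn hm => by
        refine mem_iInter.mp hv (n, m) ?_
        have := hX p
        rw [hfv, hn, hm] at this
        simpa using this
      rcases h1 with ⟨n, hn⟩ | ⟨n, hn⟩ <;> rcases h2 with ⟨m, hm⟩ | ⟨m, hm⟩
      · exact key n (m - n) hn (by push_cast; linarith)
      · exact key n (n - m) hn (by push_cast; linarith)
      · exact key (m - n) n (by push_cast; linarith) hn
      · exact key (m + n) n (by push_cast; linarith) hn) hl hα sub Al Bl Aα Bα AL BR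
  refine ⟨C, hC, fun p hp q hq => ?_, hm⟩
  have b : |x q - x p| ≤ 1 ∧ |y q - y p| ≤ 1 := by
    cases j
    · have a1 := osc hC (cx.add cy) (fun p hp => (hV hp).1) hp hq
      have a2 := osc hC (cx.add cy) (fun p hp => (hV hp).1) hq hp
      have a3 := osc hC (cx.sub cy) (fun p hp => (hV hp).2) hp hq
      have a4 := osc hC (cx.sub cy) (fun p hp => (hV hp).2) hq hp
      simp only [Pi.add_apply, Pi.sub_apply] at a1 a2 a3 a4
      constructor <;> rw [abs_le] <;> constructor <;> linarith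
    · have a1 := osc hC cx (fun p hp => (hV hp).1) hp hq
      have a2 := osc hC cx (fun p hp => (hV hp).1) hq hp
      have a3 := osc hC cy (fun p hp => (hV hp).2) hp hq
      have a4 := osc hC cy (fun p hp => (hV hp).2) hq hp
      constructor <;> rw [abs_le] <;> constructor <;> linarith
  have : f q - f p = h * (((x q - x p : ℝ) : ℂ) + ((y q - y p : ℝ) : ℂ) * I) := by
    rw [hfv q, hfv p]; push_cast; ring
  rw [this, norm_mul, Complex.norm_real, Real.norm_eq_abs, abs_of_pos h0, mul_comm 2 h]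
  refine mul_le_mul_of_nonneg_left ((norm_add_le _ _).trans ?_) h0.le
  rw [norm_mul, norm_I, mul_one, Complex.norm_real, Complex.norm_real, Real.norm_eq_abs,
    Real.norm_eq_abs]
  linarith [b.1, b.2]

/-- Limits of connected pieces with vanishing oscillation. -/
theorem limit {f : ℂ → ℂ} (hf : Continuous f) {D : Set ℂ} (hD : IsCompact D) {C : ℕ → Set ℂ}
    (hC : ∀ n, IsPreconnected (C n)) (sub : ∀ n, C n ⊆ D)
    (ho : ∀ n, ∀ p ∈ C n, ∀ q ∈ C n, ‖f q - f p‖ ≤ 2 * (1 / ((n : ℝ) + 1))) :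
    ∃ K, IsPreconnected K ∧ IsCompact K ∧ K ⊆ D ∧ (∀ p ∈ K, ∀ q ∈ K, f q = f p) ∧
      ∀ S, IsClosed S → (∀ n, (C n ∩ S).Nonempty) → (K ∩ S).Nonempty := by
  let U : Ultrafilter ℕ := Ultrafilter.of atTop
  let K := {p | ∀ N ∈ 𝓝 p, ∀ᶠ n in U, (C n ∩ N).Nonempty}
  have meet : ∀ S, IsClosed S → (∀ᶠ n in U, (C n ∩ S).Nonempty) → (K ∩ S).Nonempty := by
    intro S hS h
    classical
    let x : ℕ → ℂ := fun n => if h : (C n ∩ S).Nonempty then h.some else 0
    have hx : ∀ᶠ n in U, x n ∈ C n ∩ S := h.mono fun n hn => by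
      simp only [x, dif_pos hn]; exact hn.some_mem
    obtain ⟨p, hp, hl⟩ := (hD.inter_right hS).ultrafilter_le_nhds (U.map x)
      (le_principal_iff.mpr (hx.mono fun n hn => ⟨sub n hn.1, hn.2⟩))
    refine ⟨p, fun N hN => ?_, hp.2⟩
    have : ∀ᶠ n in U, x n ∈ N := hl hN
    exact (hx.and this).mono fun n hn => ⟨x n, hn.1.1, hn.2⟩
  have cl : IsClosed K := isClosed_iff_nhds.mpr fun p hp N hN => by
    obtain ⟨q, hq, hK⟩ := hp _ (interior_mem_nhds.mpr hN)
    exact hK N (mem_interior_iff_mem_nhds.mp hq)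
  have KD : K ⊆ D := fun p hp => by_contra fun hn => by
    obtain ⟨n, q, h1, h2⟩ := (hp _ (hD.isClosed.isOpen_compl.mem_nhds hn)).exists
    exact h2 (sub n h1)
  refine ⟨K, ?_, hD.of_isClosed_subset cl KD, KD, fun p hp q hq => ?_,
    fun S hS h => meet S hS (Eventually.of_forall h)⟩
  · refine (isPreconnected_iff_subset_of_fully_disjoint_closed cl).mpr fun u v hu hv huv dj => ?_
    obtain ⟨u', v', ou, ov, su, sv, dj'⟩ := normal_separation hu hv dj
    by_contra hn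
    rw [not_or, not_subset, not_subset] at hn
    obtain ⟨⟨q, hq, qu⟩, p, hp, pv⟩ := hn
    have e1 := hp _ (ou.mem_nhds (su ((huv hp).resolve_right pv)))
    have e2 := hq _ (ov.mem_nhds (sv ((huv hq).resolve_left qu)))
    obtain ⟨z, hz, hz'⟩ := meet _ (ou.union ov).isClosed_compl ((e1.and e2).mono fun n hn => by
      by_contra hc
      have := hC n u' v' ou ov (fun z hz => by_contra fun h => hc ⟨z, hz, h⟩) hn.1 hn.2
      obtain ⟨z, -, hz⟩ := this
      exact dj'.ne_of_mem hz.1 hz.2 rfl)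
    exact hz' (union_subset_union su sv (huv hz))
  · refine eq_of_forall_dist_le fun ε hε => ?_
    have e1 := hp _ (hf.continuousAt.preimage_mem_nhds (ball_mem_nhds (f p) (ε := ε / 4)
      (by positivity)))
    have e2 := hq _ (hf.continuousAt.preimage_mem_nhds (ball_mem_nhds (f q) (ε := ε / 4)
      (by positivity)))
    have e3 : ∀ᶠ n : ℕ in U, 1 / ((n : ℝ) + 1) < ε / 4 :=
      (tendsto_one_div_add_atTop_nhds_zero_nat.mono_left (Ultrafilter.of_le _)).eventually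
        (gt_mem_nhds (by positivity))
    obtain ⟨n, ⟨⟨p', p1, p2⟩, q', q1, q2⟩, hn⟩ := ((e1.and e2).and e3).exists
    have := ho n p' p1 q' q1
    rw [← dist_eq_norm] at this
    rw [mem_preimage, mem_ball] at p2 q2
    have t := dist_triangle4 (f q) (f q') (f p') (f p)
    rw [dist_comm] at q2
    linarith

/-- The Y lemma. -/
theorem why {f e : ℂ → ℂ} (hf : Continuous f) (he : Continuous e) {D : Set ℂ} (hD : IsCompact D)
    (eD : ∀ p, e p ∈ D) (eid : ∀ p ∈ D, e p = p) (fe : ∀ p, f (e p) = f p)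
    {X : Set ℂ} (k : IsClosed X) (d : interior X = ∅) (hX : ∀ p, f p ∈ X)
    {lam α aL aR : Set ℂ} (hl : IsPreconnected lam) (hα : IsPreconnected α)
    (sub : α ⊆ aL ∪ aR) {A B : ℂ} (Al : A ∈ lam) (Bl : B ∈ lam) (Aα : A ∈ α) (Bα : B ∈ α)
    (AL : A ∈ aL) (BR : B ∈ aR) (cl : IsClosed lam) (cL : IsClosed aL) (cR : IsClosed aR)
    (sl : lam ⊆ D) (sL : aL ⊆ D) (sR : aR ⊆ D) :
    ∃ K, IsPreconnected K ∧ IsCompact K ∧ K ⊆ D ∧ (∀ p ∈ K, ∀ q ∈ K, f q = f p) ∧
      (K ∩ lam).Nonempty ∧ (K ∩ aL).Nonempty ∧ (K ∩ aR).Nonempty := by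
  choose C h1 h2 h3 h4 h5 using fun n : ℕ => ystep hf k d hX hl hα sub Al Bl Aα Bα AL BR
    (h := 1 / ((n : ℝ) + 1)) (by positivity)
  have im : ∀ S ⊆ D, ∀ c, (c ∩ S).Nonempty → (e '' c ∩ S).Nonempty :=
    fun S hS c ⟨p, p1, p2⟩ => ⟨p, ⟨p, p1, eid p (hS p2)⟩, p2⟩
  obtain ⟨K, k1, k2, k3, k4, k5⟩ := limit hf hD (C := fun n => e '' C n)
    (fun n => (h1 n).image _ he.continuousOn) (fun n => by rintro _ ⟨p, -, rfl⟩; exact eD p)
    (fun n => by rintro _ ⟨p, hp, rfl⟩ _ ⟨q, hq, rfl⟩; rw [fe, fe]; exact h2 n p hp q hq)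
  exact ⟨K, k1, k2, k3, k4, k5 _ cl fun n => im _ sl _ (h3 n), k5 _ cL fun n => im _ sL _ (h4 n),
    k5 _ cR fun n => im _ sR _ (h5 n)⟩

end Pool.Agent.MP_4b405e_nt.H23
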